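import Pool.Agent.H67.Flat.CfgBridge4

/-!
# Ties with disjoint sides

The heights of a configuration coming from a cyclotomic polynomial are only known to be
bounded by one outside of the slivers between a left wall at `x` and a right wall at `x + 1`
(or a right wall at `x` and a left wall at `x + 1`).  If the two walls have disjoint ranges,
the bound also holds on the sliver.
-/

namespace Pool.Agent.H98.Flat

open Finset
open Pool.Agent.H67.Flat

theorem cnt_arc (p h : ℕ) (hhp : h ≤ p) (hp : 0 < p) (j Y : ℤ) :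
    (∑ i ∈ range h, (if (p : ℤ) ∣ Y + i - j then (1 : ℤ) else 0))
      = if (j - Y) % (p : ℤ) < h then 1 else 0 := by
  have hp' : (0 : ℤ) < p := by exact_mod_cast hp
  have r0 := Int.emod_nonneg (j - Y) hp'.ne'
  have r1 := Int.emod_lt_of_pos (j - Y) hp'
  have re := Int.mul_ediv_add_emod (j - Y) p
  have key : ∀ i : ℕ, i < h → ((p : ℤ) ∣ Y + i - j ↔ (i : ℤ) = (j - Y) % (p : ℤ)) := by
    intro i hi
    constructor
    · intro hd
      have h1 : (p : ℤ) ∣ i - (j - Y) % (p : ℤ) := by
        obtain ⟨c, hc⟩ := hd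
        exact ⟨c + (j - Y) / p, by linear_combination hc - re⟩
      have := Int.eq_zero_of_abs_lt_dvd h1 (by rw [abs_lt]; constructor <;> omega)
      omega
    · intro h1
      exact ⟨-((j - Y) / p), by rw [h1]; linear_combination re⟩
  by_cases c : (j - Y) % (p : ℤ) < h
  · rw [if_pos c]
    have hi0 : ((j - Y) % (p : ℤ)).toNat < h := by omega
    rw [Finset.sum_eq_single_of_mem ((j - Y) % (p : ℤ)).toNat (Finset.mem_range.2 hi0)]
    · rw [if_pos]
      rw [key _ hi0]
      omega
    · intro i hi hne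
      rw [if_neg]
      rw [key i (Finset.mem_range.1 hi)]
      omega
  · rw [if_neg c]
    refine Finset.sum_eq_zero fun i hi => ?_
    have hi' := Finset.mem_range.1 hi
    rw [if_neg]
    rw [key i hi']
    omega

namespace Cfg

variable {C : Cfg}

theorem R_jump (x v : ℤ) : C.R x v - C.R (x - 1) v
    = ∑ k ∈ range C.p, (dv C.N (x - C.U k) - dv C.N (x - C.U k - C.W)) * C.ver k v := by
  unfold R
  rw [← Finset.sum_sub_distrib]
  refine Finset.sum_congr rfl fun k _ => ?_
  rw [← sub_mul]
  congr 1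
  exact ph_jump C.N_pos C.W_pos.le C.W_lt.le x

theorem R_left (G : C.Gen) {x j : ℤ} (h : C.N ∣ x - C.U j) (v : ℤ) :
    C.R x v = C.R (x - 1) v + C.ver j v := by
  have e := C.R_jump x v
  obtain ⟨j0, hj0, hj⟩ := C.exists_mod j
  rw [Finset.sum_eq_single_of_mem j0 (Finset.mem_range.2 hj0)] at e
  · rw [dv_of, dv_not] at e
    · rw [C.ver_congr hj (u := v) (u' := v) (by simp)]
      omega
    · intro h2
      apply G.UW j j0
      have := dvd_sub h2 h
      have e2 : x - C.U j0 - C.W - (x - C.U j) = C.U j - (C.U j0 + C.W) := by ring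
      rwa [e2] at this
    · have h2 := C.U_congr hj
      have := dvd_add h h2
      rwa [sub_add_sub_cancel] at this
  · intro k _ hk
    have h1 : dv C.N (x - C.U k) = 0 := by
      apply dv_not
      intro h2
      have h3 : C.N ∣ C.U k - C.U j := by
        have := dvd_sub h h2
        rwa [sub_sub_sub_cancel_left] at this
      have h4 := G.UU _ _ h3
      have h5 := dvd_add h4 hj
      rw [sub_add_sub_cancel] at h5
      apply hk
      have hk' := Finset.mem_range.1 ‹_›
      have := Int.eq_zero_of_abs_lt_dvd h5 (by rw [abs_lt]; constructor <;> omega)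
      omega
    have h2 : dv C.N (x - C.U k - C.W) = 0 := by
      apply dv_not
      intro h2
      apply G.UW j k
      have := dvd_sub h2 h
      have e2 : x - C.U k - C.W - (x - C.U j) = C.U j - (C.U k + C.W) := by ring
      rwa [e2] at this
    rw [h1, h2]; ring

theorem R_right (G : C.Gen) {x j : ℤ} (h : C.N ∣ x - (C.U j + C.W)) (v : ℤ) :
    C.R x v = C.R (x - 1) v - C.ver j v := by
  have e := C.R_jump x v
  obtain ⟨j0, hj0, hj⟩ := C.exists_mod j
  rw [Finset.sum_eq_single_of_mem j0 (Finset.mem_range.2 hj0)] at e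
  · rw [dv_not, dv_of] at e
    · rw [C.ver_congr hj (u := v) (u' := v) (by simp)]
      omega
    · have h2 := C.U_congr hj
      have := dvd_add h h2
      have e2 : x - (C.U j + C.W) + (C.U j - C.U j0) = x - C.U j0 - C.W := by ring
      rwa [e2] at this
    · intro h2
      apply G.UW j0 j
      have := dvd_sub h h2
      have e2 : x - (C.U j + C.W) - (x - C.U j0) = C.U j0 - (C.U j + C.W) := by ring
      rwa [e2] at this
  · intro k _ hk
    have h1 : dv C.N (x - C.U k) = 0 := by
      apply dv_not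
      intro h2
      apply G.UW k j
      have := dvd_sub h h2
      have e2 : x - (C.U j + C.W) - (x - C.U k) = C.U k - (C.U j + C.W) := by ring
      rwa [e2] at this
    have h2 : dv C.N (x - C.U k - C.W) = 0 := by
      apply dv_not
      intro h2
      have h3 : C.N ∣ C.U k - C.U j := by
        have := dvd_sub h h2
        have e2 : x - (C.U j + C.W) - (x - C.U k - C.W) = C.U k - C.U j := by ring
        rwa [e2] at this
      have h4 := G.UU _ _ h3
      have h5 := dvd_add h4 hj
      rw [sub_add_sub_cancel] at h5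
      apply hk
      have hk' := Finset.mem_range.1 ‹_›
      have := Int.eq_zero_of_abs_lt_dvd h5 (by rw [abs_lt]; constructor <;> omega)
      omega
    rw [h1, h2]; ring

theorem hp_h (C : Cfg) : C.h ≤ C.p := by have := C.hwh; omega

theorem g_left (G : C.Gen) {x j : ℤ} (h : C.N ∣ x - C.U j) (Y : ℤ) :
    C.g Y x = C.g Y (x - 1) + (if (j - Y) % (C.p : ℤ) < C.h then 1 else 0) := by
  have e := C.g_jump Y x
  rw [← cnt_arc C.p C.h C.hp_h C.p_pos j Y]
  have e1 : ∑ i ∈ range C.h, dv C.N (x - (C.U (Y + C.w + i) + C.W)) = 0 := by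
    refine Finset.sum_eq_zero fun i _ => dv_not fun h2 => ?_
    apply G.UW j (Y + C.w + i)
    have := dvd_sub h2 h
    rwa [show x - (C.U (Y + C.w + i) + C.W) - (x - C.U j)
      = C.U j - (C.U (Y + C.w + i) + C.W) by ring] at this
  have e2 : ∑ i ∈ range C.h, dv C.N (x - C.U (Y + i))
      = ∑ i ∈ range C.h, (if (C.p : ℤ) ∣ Y + i - j then (1 : ℤ) else 0) := by
    refine Finset.sum_congr rfl fun i _ => ?_
    by_cases c : (C.p : ℤ) ∣ Y + i - j
    · rw [if_pos c, dv_of]
      have h2 := C.U_congr c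
      have := dvd_sub h h2
      rwa [show x - C.U j - (C.U (Y + i) - C.U j) = x - C.U (Y + i) by ring] at this
    · rw [if_neg c, dv_not]
      intro h2
      apply c
      apply G.UU
      have := dvd_sub h h2
      rwa [sub_sub_sub_cancel_left] at this
  omega

theorem g_right (G : C.Gen) {x j : ℤ} (h : C.N ∣ x - (C.U j + C.W)) (Y : ℤ) :
    C.g Y x = C.g Y (x - 1) - (if (j - C.w - Y) % (C.p : ℤ) < C.h then 1 else 0) := by
  have e := C.g_jump Y x
  rw [← cnt_arc C.p C.h C.hp_h C.p_pos (j - C.w) Y]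
  have e1 : ∑ i ∈ range C.h, dv C.N (x - C.U (Y + i)) = 0 := by
    refine Finset.sum_eq_zero fun i _ => dv_not fun h2 => ?_
    apply G.UW (Y + i) j
    have := dvd_sub h h2
    rwa [show x - (C.U j + C.W) - (x - C.U (Y + i)) = C.U (Y + i) - (C.U j + C.W) by ring] at this
  have e2 : ∑ i ∈ range C.h, dv C.N (x - (C.U (Y + C.w + i) + C.W))
      = ∑ i ∈ range C.h, (if (C.p : ℤ) ∣ Y + i - (j - C.w) then (1 : ℤ) else 0) := by
    refine Finset.sum_congr rfl fun i _ => ?_
    by_cases c : (C.p : ℤ) ∣ Y + i - (j - C.w)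
    · rw [if_pos c, dv_of]
      have c' : (C.p : ℤ) ∣ Y + C.w + i - j := by
        rwa [show Y + i - (j - (C.w : ℤ)) = Y + C.w + i - j by ring] at c
      have h2 := C.U_congr c'
      have := dvd_sub h h2
      rwa [show x - (C.U j + C.W) - (C.U (Y + C.w + i) - C.U j)
        = x - (C.U (Y + C.w + i) + C.W) by ring] at this
    · rw [if_neg c, dv_not]
      intro h2
      apply c
      have h3 : C.N ∣ C.U (Y + C.w + i) - C.U j := by
        have := dvd_sub h h2
        rwa [show x - (C.U j + C.W) - (x - (C.U (Y + C.w + i) + C.W))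
          = C.U (Y + C.w + i) - C.U j by ring] at this
      have := G.UU _ _ h3
      rwa [show Y + (C.w : ℤ) + i - j = Y + i - (j - C.w) by ring] at this
  omega

/-- the jump of the heights at a left wall -/
theorem Fint_left (G : C.Gen) {x j : ℤ} (h : C.N ∣ x - C.U j) (v Y : ℤ) :
    C.Fint (x + 1) v Y = C.Fint x v Y + C.ver j v
      - (if (j - Y) % (C.p : ℤ) < C.h then 1 else 0) := by
  have e1 := C.Fint_eq x v Y
  have e2 := C.Fint_eq (x - 1) v Y
  rw [sub_add_cancel] at e2
  have h1 := R_left G h v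
  have h2 := g_left G h Y
  omega

/-- the jump of the heights at a right wall -/
theorem Fint_right (G : C.Gen) {x j : ℤ} (h : C.N ∣ x - (C.U j + C.W)) (v Y : ℤ) :
    C.Fint (x + 1) v Y = C.Fint x v Y - C.ver j v
      + (if (j - C.w - Y) % (C.p : ℤ) < C.h then 1 else 0) := by
  have e1 := C.Fint_eq x v Y
  have e2 := C.Fint_eq (x - 1) v Y
  rw [sub_add_cancel] at e2
  have h1 := R_right G h v
  have h2 := g_right G h Y
  omega

/-- left walls at multiples of `p`, right walls at `1 (mod p)` -/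
def Kind0 (C : Cfg) : Prop := (∀ k, (C.p : ℤ) ∣ C.U k) ∧ (C.p : ℤ) ∣ C.W - 1

/-- left walls at `1 (mod p)`, right walls at multiples of `p` -/
def Kind1 (C : Cfg) : Prop := (∀ k, (C.p : ℤ) ∣ C.U k - 1) ∧ (C.p : ℤ) ∣ C.W + 1

/-- the left wall of `j` is one to the left of the right wall of `i`, with overlapping ranges -/
def Near0 (C : Cfg) (i j A : ℤ) : Prop := C.N ∣ C.U j - (C.U i + C.W - 1) ∧
  (C.p : ℤ) ∣ C.w + j - i - A ∧ -(C.h : ℤ) < A ∧ A ≤ C.h

/-- the left wall of `j` is one to the right of the right wall of `i`, with overlapping ranges -/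
def Near1 (C : Cfg) (i j A : ℤ) : Prop := C.N ∣ C.U j - (C.U i + C.W + 1) ∧
  (C.p : ℤ) ∣ C.w + j - i - A ∧ -(C.h : ℤ) ≤ A ∧ A < C.h

theorem two_arcs {N a a' L x : ℤ} (hN : 0 < N) (h : (x - a) % N < L) (h' : (x - a') % N < L) :
    ∃ t, N ∣ (a' - a) - t ∧ -L < t ∧ t < L := by
  have l0 := Int.emod_nonneg (x - a) hN.ne'
  have l1 := Int.emod_nonneg (x - a') hN.ne'
  have e0 := Int.mul_ediv_add_emod (x - a) N
  have e1 := Int.mul_ediv_add_emod (x - a') N
  refine ⟨(x - a) % N - (x - a') % N, ⟨(x - a) / N - (x - a') / N, ?_⟩, by omega, by omega⟩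
  linear_combination e1 - e0

theorem tie_ver {i j v ε : ℤ} (hε : ε = 1 ∨ ε = -1) (ht : C.N ∣ C.U j - (C.U i + C.W + ε))
    (hi : C.ver i v = 1) (hj : C.ver j v = 1) : ∃ A, (C.p : ℤ) ∣ C.w + j - i - A ∧
      -(C.H) < C.q * A + ε ∧ C.q * A + ε < C.H := by
  have hN := C.N_pos
  obtain ⟨t, ht1, t0, t1⟩ := two_arcs hN (ph_eq_one_iff.1 hi) (ph_eq_one_iff.1 hj)
  rw [sub_sub_sub_cancel_right] at ht1
  have hq0 : (0 : ℤ) < C.q := by exact_mod_cast C.hq
  -- `t = q A + ε`
  obtain ⟨c, hc⟩ := ht
  obtain ⟨d, hd⟩ := ht1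
  have hNe : C.N = C.p * C.q := rfl
  have hWe : C.W = C.q * C.w := rfl
  unfold V at hd
  refine ⟨C.w + j - i + C.p * (c - d), ⟨d - c, by ring⟩, ?_, ?_⟩
  · have : C.q * (C.w + j - i + C.p * (c - d)) + ε = t := by
      rw [hNe] at hc hd
      rw [hWe] at hc
      linear_combination hd - hc
    rw [this]; exact t0
  · have : C.q * (C.w + j - i + C.p * (c - d)) + ε = t := by
      rw [hNe] at hc hd
      rw [hWe] at hc
      linear_combination hd - hc
    rw [this]; exact t1

theorem tie_arc {i j Y : ℤ} (hi : (i - C.w - Y) % (C.p : ℤ) < C.h)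
    (hj : (j - Y) % (C.p : ℤ) < C.h) : ∃ A, (C.p : ℤ) ∣ C.w + j - i - A ∧
      -(C.h : ℤ) < A ∧ A < C.h := by
  have hp0 : (0 : ℤ) < C.p := by exact_mod_cast C.p_pos
  have hi' : (-Y - -(i - C.w)) % (C.p : ℤ) < C.h := by
    rwa [show -Y - -(i - (C.w : ℤ)) = i - C.w - Y by ring]
  have hj' : (-Y - -j) % (C.p : ℤ) < C.h := by
    rwa [show -Y - -j = j - Y by ring]
  obtain ⟨t, ht, t0, t1⟩ := two_arcs hp0 hj' hi'
  refine ⟨t, ?_, t0, t1⟩
  rwa [show -(i - (C.w : ℤ)) - -j - t = C.w + j - i - t by ring] at ht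

theorem near_of_kind0 {i j v : ℤ} (ht : C.N ∣ C.U j - (C.U i + C.W - 1))
    (hi : C.ver i v = 1) (hj : C.ver j v = 1) : ∃ A, C.Near0 i j A := by
  have hq0 : (0 : ℤ) < C.q := by exact_mod_cast C.hq
  obtain ⟨A, h1, h2, h3⟩ := tie_ver (ε := -1) (Or.inr rfl) ht hi hj
  have hHe : C.H = C.q * C.h := rfl
  rw [hHe] at h2 h3
  refine ⟨A, ht, h1, ?_, ?_⟩
  · by_contra hc
    have := mul_le_mul_of_nonneg_left (show A ≤ -(C.h : ℤ) by omega) hq0.le
    rw [mul_neg] at this
    omega
  · by_contra hc
    have := mul_le_mul_of_nonneg_left (show (C.h : ℤ) + 1 ≤ A by omega) hq0.le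
    rw [mul_add, mul_one] at this
    omega

theorem near_of_kind1 {i j v : ℤ} (ht : C.N ∣ C.U j - (C.U i + C.W + 1))
    (hi : C.ver i v = 1) (hj : C.ver j v = 1) : ∃ A, C.Near1 i j A := by
  have hq0 : (0 : ℤ) < C.q := by exact_mod_cast C.hq
  obtain ⟨A, h1, h2, h3⟩ := tie_ver (ε := 1) (Or.inl rfl) ht hi hj
  have hHe : C.H = C.q * C.h := rfl
  rw [hHe] at h2 h3
  refine ⟨A, ht, h1, ?_, ?_⟩
  · by_contra hc
    have := mul_le_mul_of_nonneg_left (show A ≤ -(C.h : ℤ) - 1 by omega) hq0.le
    rw [mul_sub, mul_neg, mul_one] at this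
    omega
  · by_contra hc
    have := mul_le_mul_of_nonneg_left (show (C.h : ℤ) ≤ A by omega) hq0.le
    omega

/-- the bound at all abscissae, from the bound at the multiples of `p` -/
theorem Fint_all_far (G : C.Gen) (hp3 : 2 ≤ C.p) (hk : C.Kind0 ∨ C.Kind1)
    (n0 : C.Kind0 → ∀ i j A, ¬ C.Near0 i j A) (n1 : C.Kind1 → ∀ i j A, ¬ C.Near1 i j A)
    (h0 : ∀ x, (C.p : ℤ) ∣ x → ∀ v Y, |C.Fint x v Y| ≤ 1) :
    ∀ x v Y, |C.Fint x v Y| ≤ 1 := by
  have hp' : (0 : ℤ) < C.p := by exact_mod_cast C.p_pos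
  have hpN : (C.p : ℤ) ∣ C.N := ⟨C.q, rfl⟩
  have h1p : ¬ (C.p : ℤ) ∣ 1 := by
    intro h
    have := Int.le_of_dvd one_pos h
    omega
  have res : ∀ x, Wall C x → (C.p : ℤ) ∣ x ∨ (C.p : ℤ) ∣ x - 1 := by
    intro x hx
    rcases hk with ⟨k1, k2⟩ | ⟨k1, k2⟩
    · rcases hx with ⟨k, hx⟩ | ⟨k, hx⟩
      · left
        have := dvd_add (hpN.trans hx) (k1 k)
        rwa [sub_add_cancel] at this
      · right
        have := dvd_add (dvd_add (hpN.trans hx) (k1 k)) k2
        rwa [show x - (C.U k + C.W) + C.U k + (C.W - 1) = x - 1 by ring] at this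
    · rcases hx with ⟨k, hx⟩ | ⟨k, hx⟩
      · right
        have := dvd_add (hpN.trans hx) (k1 k)
        rwa [show x - C.U k + (C.U k - 1) = x - 1 by ring] at this
      · left
        have := dvd_add (dvd_add (hpN.trans hx) (k1 k)) k2
        rwa [show x - (C.U k + C.W) + (C.U k - 1) + (C.W + 1) = x by ring] at this
  -- from `x` with residue `≥ 2` upwards
  have up : ∀ (n : ℕ) (x : ℤ), (C.p : ℤ) ∣ x + n → (n : ℤ) + 2 ≤ C.p →
      ∀ v Y, |C.Fint x v Y| ≤ 1 := by
    intro n
    induction n with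
    | zero => intro x hx _; exact h0 x (by simpa using hx)
    | succ n ih =>
      intro x hx hn v Y
      push_cast at hx hn
      have hnw : ¬ Wall C x := by
        intro hw
        rcases res x hw with h1 | h1
        · have := dvd_sub hx h1
          rw [show x + ((n : ℤ) + 1) - x = n + 1 by ring] at this
          have := Int.le_of_dvd (by omega) this
          omega
        · have := dvd_sub hx h1
          rw [show x + ((n : ℤ) + 1) - (x - 1) = n + 2 by ring] at this
          have := Int.le_of_dvd (by omega) this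
          omega
      rw [← Fint_step hnw v Y]
      exact ih (x + 1) (by rwa [show x + 1 + (n : ℤ) = x + (n + 1) by ring]) (by omega) v Y
  -- the cell after residue one
  have h2 : ∀ x, (C.p : ℤ) ∣ x → ∀ v Y, |C.Fint (x + 1 + 1) v Y| ≤ 1 := by
    intro x hx v Y
    rcases Nat.lt_or_ge C.p 3 with hp2 | hp2
    · have : C.p = 2 := by omega
      refine h0 (x + 1 + 1) ?_ v Y
      have := dvd_add hx (dvd_refl (C.p : ℤ))
      rw [show x + (C.p : ℤ) = x + 1 + 1 by omega] at this
      exact this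
    · refine up (C.p - 2) (x + 1 + 1) ?_ ?_ v Y
      · rw [Nat.cast_sub (by omega)]
        have := dvd_add hx (dvd_refl (C.p : ℤ))
        rwa [show x + (C.p : ℤ) = x + 1 + 1 + (C.p - (2 : ℕ)) by push_cast; ring] at this
      · rw [Nat.cast_sub (by omega)]; push_cast; omega
  intro x v Y
  have r0 := Int.emod_nonneg x hp'.ne'
  have r1 := Int.emod_lt_of_pos x hp'
  have re := Int.mul_ediv_add_emod x C.p
  rcases lt_or_ge (x % (C.p : ℤ)) 1 with c | c
  · exact h0 x ⟨x / C.p, by omega⟩ v Y
  rcases lt_or_ge (x % (C.p : ℤ)) 2 with c2 | c2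
  · -- residue one
    have hx1 : (C.p : ℤ) ∣ x - 1 := ⟨x / C.p, by omega⟩
    obtain ⟨y, rfl⟩ : ∃ y, x = y + 1 := ⟨x - 1, by ring⟩
    rw [add_sub_cancel_right] at hx1
    by_cases hw : Wall C y
    · by_cases hw' : Wall C (y + 1)
      · have b0 := abs_le.1 (h0 y hx1 v Y)
        have b2 := abs_le.1 (h2 y hx1 v Y)
        rw [abs_le]
        rcases hk with hk | hk
        · obtain ⟨k1, k2⟩ := hk
          obtain ⟨j, hj⟩ : ∃ j, C.N ∣ y - C.U j := by
            rcases hw with h | ⟨k, h⟩
            · exact h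
            · exfalso
              apply h1p
              have := dvd_sub hx1 (dvd_add (dvd_add (hpN.trans h) (k1 k)) k2)
              rwa [show y - (y - (C.U k + C.W) + C.U k + (C.W - 1)) = 1 by ring] at this
          obtain ⟨i, hi⟩ : ∃ i, C.N ∣ y + 1 - (C.U i + C.W) := by
            rcases hw' with ⟨k, h⟩ | h
            · exfalso
              apply h1p
              have := dvd_sub (dvd_add (hpN.trans h) (k1 k)) hx1
              rwa [show y + 1 - C.U k + C.U k - y = 1 by ring] at this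
            · exact h
          have f1 := Fint_left G hj v Y
          have f2 := Fint_right G hi v Y
          have ht : C.N ∣ C.U j - (C.U i + C.W - 1) := by
            have := dvd_sub hi hj
            rwa [show y + 1 - (C.U i + C.W) - (y - C.U j) = C.U j - (C.U i + C.W - 1) by ring]
              at this
          have d1 : ¬ (C.ver i v = 1 ∧ C.ver j v = 1) := by
            rintro ⟨a, b⟩
            obtain ⟨A, hA⟩ := near_of_kind0 ht a b
            exact n0 ⟨k1, k2⟩ i j A hA
          have d2 : ¬ ((i - C.w - Y) % (C.p : ℤ) < C.h ∧ (j - Y) % (C.p : ℤ) < C.h) := by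
            rintro ⟨a, b⟩
            obtain ⟨A, hA1, hA2, hA3⟩ := tie_arc a b
            exact n0 ⟨k1, k2⟩ i j A ⟨ht, hA1, hA2, by omega⟩
          have v1 := C.ver01 i v
          have v2 := C.ver01 j v
          by_cases e1 : (i - C.w - Y) % (C.p : ℤ) < C.h <;>
            by_cases e2 : (j - Y) % (C.p : ℤ) < C.h
          · exact absurd ⟨e1, e2⟩ d2
          · rw [if_pos e1] at f2; rw [if_neg e2] at f1; omega
          · rw [if_neg e1] at f2; rw [if_pos e2] at f1; omega
          · rw [if_neg e1] at f2; rw [if_neg e2] at f1; omega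
        · obtain ⟨k1, k2⟩ := hk
          obtain ⟨i, hi⟩ : ∃ i, C.N ∣ y - (C.U i + C.W) := by
            rcases hw with ⟨k, h⟩ | h
            · exfalso
              apply h1p
              have := dvd_sub hx1 (dvd_add (hpN.trans h) (k1 k))
              rwa [show y - (y - C.U k + (C.U k - 1)) = 1 by ring] at this
            · exact h
          obtain ⟨j, hj⟩ : ∃ j, C.N ∣ y + 1 - C.U j := by
            rcases hw' with h | ⟨k, h⟩
            · exact h
            · exfalso
              apply h1p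
              have := dvd_sub (dvd_add (dvd_add (hpN.trans h) (k1 k)) k2) hx1
              rwa [show y + 1 - (C.U k + C.W) + (C.U k - 1) + (C.W + 1) - y = 1 by ring] at this
          have f1 := Fint_right G hi v Y
          have f2 := Fint_left G hj v Y
          have ht : C.N ∣ C.U j - (C.U i + C.W + 1) := by
            have := dvd_sub hi hj
            rwa [show y - (C.U i + C.W) - (y + 1 - C.U j) = C.U j - (C.U i + C.W + 1) by ring]
              at this
          have d1 : ¬ (C.ver i v = 1 ∧ C.ver j v = 1) := by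
            rintro ⟨a, b⟩
            obtain ⟨A, hA⟩ := near_of_kind1 ht a b
            exact n1 ⟨k1, k2⟩ i j A hA
          have d2 : ¬ ((i - C.w - Y) % (C.p : ℤ) < C.h ∧ (j - Y) % (C.p : ℤ) < C.h) := by
            rintro ⟨a, b⟩
            obtain ⟨A, hA1, hA2, hA3⟩ := tie_arc a b
            exact n1 ⟨k1, k2⟩ i j A ⟨ht, hA1, by omega, by omega⟩
          have v1 := C.ver01 i v
          have v2 := C.ver01 j v
          by_cases e1 : (i - C.w - Y) % (C.p : ℤ) < C.h <;>
            by_cases e2 : (j - Y) % (C.p : ℤ) < C.h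
          · exact absurd ⟨e1, e2⟩ d2
          · rw [if_pos e1] at f1; rw [if_neg e2] at f2; omega
          · rw [if_neg e1] at f1; rw [if_pos e2] at f2; omega
          · rw [if_neg e1] at f1; rw [if_neg e2] at f2; omega
      · rw [← Fint_step hw' v Y]
        exact h2 y hx1 v Y
    · rw [Fint_step hw v Y]
      exact h0 y hx1 v Y
  · refine up (C.p - x % C.p).toNat x ?_ ?_ v Y
    · rw [Int.toNat_of_nonneg (by omega)]
      exact ⟨x / C.p + 1, by rw [mul_add]; omega⟩
    · rw [Int.toNat_of_nonneg (by omega)]; omega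

end Cfg

end Pool.Agent.H98.Flat
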